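import Pool.Agent.MT100B.Stmts
import Pool.Agent.Helper65_MT100.Val

/-! VAL for MT100B: the values of the translated fundamental matrix -/

set_option autoImplicit false

namespace Pool.Agent.MT100B.H65V

open Pool.Agent.MT100 Matrix Pool.Agent.Helper65MT100

theorem ab_hyp (hH : HgrStmt) (D : Dat) {x : ℝ} (hx : 0 < x) (h1 : (D.lam : ℝ) * x < 1)
    (a l : Fin (ro D)) : Helper65MT100.Ab (Hyp D a l) x := by
  obtain ⟨C, hC⟩ := hH D
  have hlam : (0 : ℝ) < (D.lam : ℝ) := by exact_mod_cast D.lam_pos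
  have hr : 0 < (D.lam : ℝ) * x := mul_pos hlam hx
  have h2 : Summable fun n : ℕ => (n : ℝ) ^ C * ((D.lam : ℝ) * x) ^ n :=
    summable_pow_mul_geometric_of_norm_lt_one C (by
      rw [Real.norm_eq_abs, abs_of_pos hr]; exact h1)
  have h3 : Summable fun n : ℕ => ((n : ℝ) + 1) ^ C * ((D.lam : ℝ) * x) ^ (n + 1) := by
    have := (summable_nat_add_iff 1).mpr h2
    refine this.congr fun n => ?_
    push_cast
    ring
  have h4 := h3.mul_left ((C : ℝ) * ((D.lam : ℝ) * x)⁻¹)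
  unfold Helper65MT100.Ab
  refine Summable.of_nonneg_of_le (fun n => by positivity) (fun n => ?_) h4
  have h5 : |((PowerSeries.coeff n (Hyp D a l) : ℚ) : ℝ)| ≤
      (C : ℝ) * ((n : ℝ) + 1) ^ C * (D.lam : ℝ) ^ n := by
    have := hC a l n
    have h6 : ((|PowerSeries.coeff n (Hyp D a l)| : ℚ) : ℝ) ≤
        (((C : ℚ) * ((n : ℚ) + 1) ^ C * D.lam ^ n : ℚ) : ℝ) := by exact_mod_cast this
    push_cast at h6
    exact h6
  rw [abs_of_pos hx]
  calc |((PowerSeries.coeff n (Hyp D a l) : ℚ) : ℝ)| * x ^ n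
      ≤ ((C : ℝ) * ((n : ℝ) + 1) ^ C * (D.lam : ℝ) ^ n) * x ^ n :=
        mul_le_mul_of_nonneg_right h5 (pow_nonneg hx.le n)
    _ = (C : ℝ) * ((D.lam : ℝ) * x)⁻¹ * (((n : ℝ) + 1) ^ C * ((D.lam : ℝ) * x) ^ (n + 1)) := by
        rw [pow_succ, mul_pow]
        field_simp

/-- VAL -/
theorem val (hEva : EvaStmt) (hHgr : HgrStmt) : ValStmt := by
  intro D κ
  have hE : E3 := fun f g x hf hg => by
    have := hEva.2.2.1 f g x hf hg
    exact this
  have hlam : (0 : ℝ) < (D.lam : ℝ) := by exact_mod_cast D.lam_pos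
  filter_upwards [Filter.eventually_gt_atTop ((D.lam : ℝ) + κ + 1)] with w hw
  have hκ : (0 : ℝ) ≤ (κ : ℝ) := Nat.cast_nonneg κ
  have hw0 : 0 < w := by linarith
  have hwk : 0 < w - κ := by linarith
  have hx : 0 < w⁻¹ := inv_pos.mpr hw0
  have h1 : (κ : ℝ) * w⁻¹ < 1 := by
    rw [← div_eq_mul_inv, div_lt_one hw0]
    linarith
  have hy : w⁻¹ / (1 - κ * w⁻¹) = (w - κ)⁻¹ := by
    have h2 : 1 - (κ : ℝ) * w⁻¹ = (w - κ) * w⁻¹ := by
      rw [sub_mul, mul_inv_cancel₀ hw0.ne']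
    rw [h2]
    field_simp
  have h3 : (D.lam : ℝ) * (w - κ)⁻¹ < 1 := by
    rw [← div_eq_mul_inv, div_lt_one hwk]
    linarith
  have hab : ∀ a l, Helper65MT100.Ab (Hyp D a l) (w⁻¹ / (1 - κ * w⁻¹)) := by
    intro a l
    rw [hy]
    exact ab_hyp hHgr D (inv_pos.mpr hwk) h3 a l
  have hsub := fun a l => subst_ev hE κ hx.le h1 (hab a l)
  have hlg := lgs_ev κ hx.le h1
  have hen := en_ev hE (ro D) hlg.1
  have hT : (Tr D κ).map (fun f => ev f w⁻¹) =
      (Hyp D).map (fun f => ev f (w - κ)⁻¹) * en (ro D) (-Real.log (1 - κ * w⁻¹)) := by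
    unfold Tr
    rw [mul_ev hE _ _ (fun i j => by rw [Matrix.map_apply]; exact (hsub i j).1) hen.1, hen.2,
      hlg.2]
    congr 1
    ext i j
    rw [Matrix.map_apply, Matrix.map_apply, Matrix.map_apply, (hsub i j).2, hy]
  rw [hT, Matrix.mul_assoc, ← en_add]
  unfold W
  congr 2
  have h4 : 1 - (κ : ℝ) * w⁻¹ = (w - κ) * w⁻¹ := by
    rw [sub_mul, mul_inv_cancel₀ hw0.ne']
  rw [h4, Real.log_mul hwk.ne' hx.ne', Real.log_inv]
  ring

end Pool.Agent.MT100B.H65V
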