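import Pool.Agent.MT100B.StmtsP
import Pool.Agent.Helper65_MT100.Vap

/-! VAP for MT100B: the values of the pullback of the hypergeometric system of odd order -/

set_option autoImplicit false

namespace Pool.Agent.MT100B.H65V

open Pool.Agent.MT100 Matrix Pool.Agent.Helper65MT100

/-- VAP -/
theorem vap (hEns : EnsStmt) (hHgt : HgtStmt) : VapStmt := by
  intro D φ hd hc κ
  have h := vag (Fin (ro D)) (Hyp D) (Nsh (ro D)) (nsh_nil (ro D)) (fun i j => hHgt D i j) φ hd hc κ
  filter_upwards [h] with w hw
  unfold TrG at hw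
  rw [hEns, hEns, hEns] at hw
  exact hw

end Pool.Agent.MT100B.H65V
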